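import Pool.Agent.RKF.Main
import Pool.Agent.Rank.Final

set_option autoImplicit false

open Finset

namespace Pool.Agent.OddHalf26

open scoped FinsetFamily

/-- The top part of the LYM inequality: an antichain `𝒜` above level `m` and its shadow at level
`m`. -/
theorem lym_falling {α : Type*} [Fintype α] [DecidableEq α] {m a b : ℕ}
    {𝒜 : Finset (Finset α)} (hm : m ≤ Fintype.card α)
    (h𝒜 : IsAntichain (· ⊆ ·) (𝒜 : Set (Finset α))) (hlo : ∀ B ∈ 𝒜, m ≤ B.card)
    (hc : ∀ B ∈ 𝒜, a * (Fintype.card α).choose B.card ≤ b * (Fintype.card α).choose m) :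
    a * 𝒜.card ≤ b * (falling m 𝒜).card := by
  set n := Fintype.card α with hn
  have hCm : (0 : ℚ) < (n.choose m : ℚ) := by exact_mod_cast Nat.choose_pos hm
  have h1 := le_card_falling_div_choose (𝕜 := ℚ) (k := n - m) (𝒜 := 𝒜) (Nat.sub_le _ _) h𝒜
  rw [← hn, Nat.sub_sub_self hm] at h1
  have h2 : ∑ B ∈ 𝒜, ((n.choose B.card : ℚ))⁻¹ = ∑ r ∈ range (n - m + 1),
      ((𝒜 # (n - r)).card : ℚ) / (n.choose (n - r) : ℚ) := by
    have h3 : ∀ B ∈ 𝒜, n - B.card ∈ range (n - m + 1) := by
      intro B hB
      have := hlo B hB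
      rw [mem_range]
      omega
    rw [← sum_fiberwise_of_maps_to h3]
    refine sum_congr rfl fun r hr => ?_
    rw [mem_range] at hr
    have h4 : 𝒜.filter (fun B => n - B.card = r) = 𝒜 # (n - r) := by
      ext B
      rw [mem_filter, mem_slice]
      refine and_congr_right fun hB => ?_
      have := hlo B hB
      have := card_le_univ B
      omega
    rw [h4, div_eq_mul_inv, ← nsmul_eq_mul, ← sum_const]
    refine sum_congr rfl fun B hB => ?_
    rw [(mem_slice.mp hB).2]
  have h5 : (a : ℚ) * 𝒜.card ≤ b * n.choose m * ∑ B ∈ 𝒜, ((n.choose B.card : ℚ))⁻¹ := by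
    rw [mul_sum, mul_comm, ← nsmul_eq_mul, ← sum_const]
    refine sum_le_sum fun B hB => ?_
    have h6 : (0 : ℚ) < (n.choose B.card : ℚ) := by
      exact_mod_cast Nat.choose_pos (card_le_univ B)
    have h7 : (a : ℚ) * n.choose B.card ≤ b * n.choose m := by exact_mod_cast hc B hB
    rw [← div_eq_mul_inv, le_div_iff₀ h6]
    exact h7
  have h8 : (a : ℚ) * 𝒜.card ≤ b * (falling m 𝒜).card := by
    refine h5.trans ?_
    rw [h2]
    calc (b : ℚ) * n.choose m * ∑ r ∈ range (n - m + 1),
          ((𝒜 # (n - r)).card : ℚ) / (n.choose (n - r) : ℚ)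
        ≤ b * n.choose m * ((falling m 𝒜).card / n.choose m) := by gcongr
      _ = b * (falling m 𝒜).card := by field_simp
  exact_mod_cast h8

/-- The count: `P` intersecting, `N` arbitrary, both on level `s + 1`, `M` a family of `s`-sets which
avoids their shadow. -/
theorem count {n s k : ℕ} (hn : n = 2 * s + 1 + k) {P N M : Finset (Finset (Fin n))}
    (hP : ∀ A ∈ P, A.card = s + 1) (hPi : ∀ A ∈ P, ∀ B ∈ P, (A ∩ B).Nonempty)
    (hN : ∀ A ∈ N, A.card = s + 1) (hPN : Disjoint P N) (hM : ∀ A ∈ M, A.card = s)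
    (hMd : ∀ z ∈ M, ∀ y ∈ P ∪ N, ¬ z ⊆ y) :
    (s + 1 + k) * (P.card + M.card) + (s + 1 + k) * N.card ≤
      (s + 1 + k) * n.choose s + 2 * k * N.card := by
  have h1 := RKF.robust_katona (n := n) (k := s) P (P ∪ N) subset_union_left
    (fun A hA => by
      rcases mem_union.mp hA with h | h
      · exact hP A h
      · exact hN A h) hPi
  have e1 : (P ∪ N) \ P = N := by
    rw [union_sdiff_left]
    exact sdiff_eq_self_of_disjoint hPN.symm
  rw [e1, card_union_of_disjoint hPN] at h1
  have e2 : n - s = s + 1 + k := by omega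
  have e3 : n - 2 * s - 1 = k := by omega
  rw [e2, e3] at h1
  have h2 : Disjoint M (∂ (P ∪ N)) := by
    rw [Finset.disjoint_left]
    intro z hz hz'
    obtain ⟨y, hy, hzy⟩ := exists_subset_of_mem_shadow hz'
    exact hMd z hz y hy hzy
  have h3 : M.card + (∂ (P ∪ N)).card ≤ n.choose s := by
    rw [← card_union_of_disjoint h2]
    have h4 : M ∪ ∂ (P ∪ N) ⊆ (univ : Finset (Fin n)).powersetCard s := by
      intro z hz
      rw [mem_powersetCard]
      refine ⟨subset_univ _, ?_⟩
      rcases mem_union.mp hz with h | h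
      · exact hM z h
      · have h5 : ((P ∪ N : Finset (Finset (Fin n))) : Set (Finset (Fin n))).Sized (s + 1) := by
          intro A hA
          rw [mem_coe, mem_union] at hA
          rcases hA with h | h
          · exact hP A h
          · exact hN A h
        exact (Set.Sized.shadow h5) h
    have h6 := card_le_card h4
    rwa [card_powersetCard, card_univ, Fintype.card_fin] at h6
  have h7 : (s + 1 + k) * (M.card + (∂ (P ∪ N)).card) ≤ (s + 1 + k) * n.choose s :=
    Nat.mul_le_mul_left _ h3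
  rw [mul_add] at h7
  rw [mul_add] at h1 ⊢
  linarith

end Pool.Agent.OddHalf26
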