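import Pool.Agent.OddHalf26.Core

set_option autoImplicit false

open Finset

namespace Pool.Agent.OddHalf26

open scoped FinsetFamily

section Basic

variable {n : ℕ}

theorem card_of_disjoint {A B : Finset (Fin n)} {d : ℕ} (h : (symmDiff A B).card ≤ d)
    (hAB : A ∩ B = ∅) : A.card + B.card ≤ d := by
  have h1 : Disjoint A B := disjoint_iff_inter_eq_empty.mpr hAB
  rw [h1.symmDiff_eq_sup, sup_eq_union, card_union_of_disjoint h1] at h
  exact h

theorem symmDiff_compl {A B : Finset (Fin n)} : symmDiff Aᶜ Bᶜ = symmDiff A B := by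
  ext x
  simp only [mem_symmDiff, mem_compl]
  tauto

theorem card_of_cover {A B : Finset (Fin n)} {d : ℕ} (h : (symmDiff A B).card ≤ d)
    (hAB : A ∪ B = univ) : (n - A.card) + (n - B.card) ≤ d := by
  have h1 : Aᶜ ∩ Bᶜ = ∅ := by
    rw [← compl_union, hAB, compl_univ]
  have h2 := card_of_disjoint (A := Aᶜ) (B := Bᶜ) (d := d) (by rw [symmDiff_compl]; exact h) h1
  rwa [card_compl, card_compl, Fintype.card_fin] at h2

theorem inter_of_subset_compl {A B : Finset (Fin n)} (h : A ⊆ Bᶜ) : A ∩ B = ∅ := by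
  rw [← disjoint_iff_inter_eq_empty]
  exact (subset_compl_iff_disjoint_right).mp h

theorem cover_of_compl_subset {A B : Finset (Fin n)} (h : Aᶜ ⊆ B) : A ∪ B = univ := by
  rw [eq_univ_iff_forall]
  intro x
  by_cases hx : x ∈ A
  · exact mem_union_left _ hx
  · exact mem_union_right _ (h (mem_compl.mpr hx))

/-- The complements of the members. -/
def co (F : Finset (Finset (Fin n))) : Finset (Finset (Fin n)) := F.image compl

theorem mem_co {F : Finset (Finset (Fin n))} {A : Finset (Fin n)} : A ∈ co F ↔ ∃ B ∈ F, Bᶜ = A := by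
  simp only [co, mem_image]

theorem card_co (F : Finset (Finset (Fin n))) : (co F).card = F.card :=
  card_image_of_injective _ compl_injective

end Basic

/-- **The exact bound for `n + k` odd** when the members of size less than `s` meet the members of
size more than `s + 1`, dually, and the sizes strictly between `s + 1` and `n - s - 1` have small
levels. -/
theorem odd_main {n s k : ℕ} (hn : n = 2 * s + 1 + k) (hk : 2 ≤ k) {F : Finset (Finset (Fin n))}
    (hF : IsAntichain (· ⊆ ·) (F : Set (Finset (Fin n))))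
    (hd : ∀ A ∈ F, ∀ B ∈ F, (symmDiff A B).card ≤ 2 * s + 1)
    (hC1 : ∀ A ∈ F, ∀ B ∈ F, A.card < s → s + 1 < B.card → (A ∩ B).Nonempty)
    (hC2 : ∀ A ∈ F, ∀ B ∈ F, n - s < A.card → B.card < n - s - 1 → A ∪ B ≠ univ)
    (hnum : ∀ A ∈ F, s + 1 < A.card → A.card < n - s - 1 →
      (s + 1 + k) * n.choose A.card ≤ 2 * ((s + 1 - k) * n.choose (s + 1))) :
    F.card ≤ n.choose s := by
  -- the parts of `F`
  obtain ⟨Fl, hFl⟩ : ∃ X, X = F.filter (fun A => A.card ≤ s) := ⟨_, rfl⟩
  obtain ⟨Fh, hFh⟩ : ∃ X, X = F.filter (fun A => n - s ≤ A.card) := ⟨_, rfl⟩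
  obtain ⟨F1, hF1⟩ : ∃ X, X = F.filter (fun A => A.card = s + 1) := ⟨_, rfl⟩
  obtain ⟨F2, hF2⟩ : ∃ X, X = F.filter (fun A => A.card = n - s - 1) := ⟨_, rfl⟩
  obtain ⟨G, hG⟩ : ∃ X, X = F.filter (fun A => s + 1 < A.card ∧ A.card < n - s - 1) := ⟨_, rfl⟩
  obtain ⟨R, hR⟩ : ∃ X, X = Fl ∪ co Fh := ⟨_, rfl⟩
  obtain ⟨P, hP⟩ : ∃ X, X = F1 ∪ co F2 := ⟨_, rfl⟩
  obtain ⟨GG, hGG⟩ : ∃ X, X = G ∪ co G := ⟨_, rfl⟩
  obtain ⟨N, hN⟩ : ∃ X, X = falling (s + 1) GG := ⟨_, rfl⟩
  obtain ⟨M, hM⟩ : ∃ X, X = Rank.above s R := ⟨_, rfl⟩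
  have mFl : ∀ A, A ∈ Fl → A ∈ F ∧ A.card ≤ s := fun A h => mem_filter.mp (hFl ▸ h)
  have mFh : ∀ A, A ∈ Fh → A ∈ F ∧ n - s ≤ A.card := fun A h => mem_filter.mp (hFh ▸ h)
  have mF1 : ∀ A, A ∈ F1 → A ∈ F ∧ A.card = s + 1 := fun A h => mem_filter.mp (hF1 ▸ h)
  have mF2 : ∀ A, A ∈ F2 → A ∈ F ∧ A.card = n - s - 1 := fun A h => mem_filter.mp (hF2 ▸ h)
  have mG : ∀ A, A ∈ G → A ∈ F ∧ s + 1 < A.card ∧ A.card < n - s - 1 := fun A h => mem_filter.mp (hG ▸ h)
  have mR : ∀ A, A ∈ R → A ∈ Fl ∨ A ∈ co Fh := fun A h => mem_union.mp (hR ▸ h)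
  have mP : ∀ A, A ∈ P → A ∈ F1 ∨ A ∈ co F2 := fun A h => mem_union.mp (hP ▸ h)
  have mGG : ∀ A, A ∈ GG → A ∈ G ∨ A ∈ co G := fun A h => mem_union.mp (hGG ▸ h)
  have mN : ∀ A, A ∈ N → (∃ t ∈ GG, A ⊆ t) ∧ A.card = s + 1 := fun A h => mem_falling.mp (hN ▸ h)
  have mM : ∀ A, A ∈ M → A.card = s ∧ ∃ B ∈ R, B.card ≤ s ∧ B ⊆ A := fun A h => Rank.mem_above.mp (hM ▸ h)
  have hcU : ∀ A : Finset (Fin n), A.card ≤ n := fun A => by
    have := card_le_univ A
    rwa [Fintype.card_fin] at this
  have hcc : ∀ A : Finset (Fin n), Aᶜ.card = n - A.card := fun A => by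
    rw [card_compl, Fintype.card_fin]
  -- antichain, in the form used below
  have anti : ∀ A ∈ F, ∀ B ∈ F, A.card < B.card → ¬ A ⊆ B := by
    intro A hA B hB hlt hAB
    have hne : A ≠ B := by
      rintro rfl
      exact lt_irrefl _ hlt
    exact hF (mem_coe.mpr hA) (mem_coe.mpr hB) hne hAB
  have noncomp : ∀ A ∈ F, ∀ B ∈ F, Bᶜ ≠ A := by
    intro A hA B hB h
    have h1 := hd A hA B hB
    have h2 : A ∩ B = ∅ := by
      rw [← h]
      exact inter_of_subset_compl (le_refl _)
    have h3 := card_of_disjoint h1 h2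
    have h4 := hcc B
    rw [h] at h4
    have := hcU B
    omega
  -- the lower family `R`
  have hRcard : ∀ A ∈ R, A.card ≤ s := by
    intro A hA
    rcases mR A hA with h | h
    · exact (mFl A h).2
    · obtain ⟨B, hB, rfl⟩ := mem_co.mp h
      rw [hcc B]
      have := (mFh B hB).2
      omega
  have hRanti : IsAntichain (· ⊆ ·) (R : Set (Finset (Fin n))) := by
    intro A hA B hB hne hAB
    rw [mem_coe, hR, mem_union] at hA hB
    rcases hA with hA | hA <;> rcases hB with hB | hB
    · exact hF (mem_coe.mpr (mFl A hA).1) (mem_coe.mpr (mFl B hB).1) hne hAB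
    · obtain ⟨B', hB', rfl⟩ := mem_co.mp hB
      obtain ⟨a1, a2⟩ := mFl A hA
      obtain ⟨b1, b2⟩ := mFh B' hB'
      have h1 := inter_of_subset_compl hAB
      have h2 := card_of_disjoint (hd A a1 B' b1) h1
      rcases Nat.lt_or_ge A.card s with h3 | h3
      · obtain ⟨x, hx⟩ := hC1 A a1 B' b1 h3 (by omega)
        rw [h1] at hx
        exact notMem_empty x hx
      · omega
    · obtain ⟨A', hA', rfl⟩ := mem_co.mp hA
      obtain ⟨b1, b2⟩ := mFl B hB
      obtain ⟨a1, a2⟩ := mFh A' hA'
      have h1 := cover_of_compl_subset hAB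
      have h2 := card_of_cover (hd A' a1 B b1) h1
      rcases Nat.lt_or_ge (n - s) A'.card with h3 | h3
      · exact hC2 A' a1 B b1 h3 (by omega) h1
      · omega
    · obtain ⟨A', hA', rfl⟩ := mem_co.mp hA
      obtain ⟨B', hB', rfl⟩ := mem_co.mp hB
      refine hF (mem_coe.mpr (mFh B' hB').1) (mem_coe.mpr (mFh A' hA').1) ?_
        (compl_subset_compl.mp hAB)
      rintro rfl
      exact hne rfl
  have hRsize : R.card = Fl.card + Fh.card := by
    rw [hR, card_union_of_disjoint, card_co]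
    rw [Finset.disjoint_left]
    intro A hA hA'
    obtain ⟨B, hB, h⟩ := mem_co.mp hA'
    exact noncomp A (mFl A hA).1 B (mFh B hB).1 h
  have hRM : R.card ≤ M.card := by
    have h1 := Rank.card_le_above (s := s) (F := R) (by rw [Fintype.card_fin]; omega) hRanti
    rwa [filter_true_of_mem hRcard, ← hM] at h1
  -- the intersecting family `P`
  have hPcard : ∀ A ∈ P, A.card = s + 1 := by
    intro A hA
    rcases mP A hA with h | h
    · exact (mF1 A h).2
    · obtain ⟨B, hB, rfl⟩ := mem_co.mp h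
      rw [hcc B, (mF2 B hB).2]
      omega
  have hPsize : P.card = F1.card + F2.card := by
    rw [hP, card_union_of_disjoint, card_co]
    rw [Finset.disjoint_left]
    intro A hA hA'
    obtain ⟨B, hB, h⟩ := mem_co.mp hA'
    exact noncomp A (mF1 A hA).1 B (mF2 B hB).1 h
  have hPi : ∀ A ∈ P, ∀ B ∈ P, (A ∩ B).Nonempty := by
    intro A hA B hB
    rw [nonempty_iff_ne_empty]
    intro h0
    rcases mP A hA with hA | hA <;> rcases mP B hB with hB | hB
    · obtain ⟨a1, a2⟩ := mF1 A hA
      obtain ⟨b1, b2⟩ := mF1 B hB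
      have := card_of_disjoint (hd A a1 B b1) h0
      omega
    · obtain ⟨B', hB', rfl⟩ := mem_co.mp hB
      obtain ⟨a1, a2⟩ := mF1 A hA
      obtain ⟨b1, b2⟩ := mF2 B' hB'
      refine anti A a1 B' b1 (by omega) ?_
      have := (subset_compl_iff_disjoint_right).mpr (disjoint_iff_inter_eq_empty.mpr h0)
      rwa [compl_compl] at this
    · obtain ⟨A', hA', rfl⟩ := mem_co.mp hA
      obtain ⟨a1, a2⟩ := mF2 A' hA'
      obtain ⟨b1, b2⟩ := mF1 B hB
      refine anti B b1 A' a1 (by omega) ?_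
      have := (subset_compl_iff_disjoint_left).mpr (disjoint_iff_inter_eq_empty.mpr h0)
      rwa [compl_compl] at this
    · obtain ⟨A', hA', rfl⟩ := mem_co.mp hA
      obtain ⟨B', hB', rfl⟩ := mem_co.mp hB
      obtain ⟨a1, a2⟩ := mF2 A' hA'
      obtain ⟨b1, b2⟩ := mF2 B' hB'
      have h1 : A' ∪ B' = univ := by
        rw [← compl_union] at h0
        rw [← compl_compl (A' ∪ B'), h0, compl_empty]
      have := card_of_cover (hd A' a1 B' b1) h1
      omega
  -- the middle part
  have hGGcard : ∀ B ∈ GG, s + 1 < B.card ∧ B.card < n - s - 1 := by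
    intro B hB
    rcases mGG B hB with h | h
    · exact (mG B h).2
    · obtain ⟨A, hA, rfl⟩ := mem_co.mp h
      obtain ⟨a1, a2, a3⟩ := mG A hA
      rw [hcc A]
      omega
  have hGGsize : GG.card = 2 * G.card := by
    rw [hGG, card_union_of_disjoint, card_co]
    · ring
    · rw [Finset.disjoint_left]
      intro A hA hA'
      obtain ⟨B, hB, h⟩ := mem_co.mp hA'
      exact noncomp A (mG A hA).1 B (mG B hB).1 h
  have hGGanti : IsAntichain (· ⊆ ·) (GG : Set (Finset (Fin n))) := by
    intro A hA B hB hne hAB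
    rw [mem_coe, hGG, mem_union] at hA hB
    rcases hA with hA | hA <;> rcases hB with hB | hB
    · exact hF (mem_coe.mpr (mG A hA).1) (mem_coe.mpr (mG B hB).1) hne hAB
    · obtain ⟨B', hB', rfl⟩ := mem_co.mp hB
      obtain ⟨a1, a2, a3⟩ := mG A hA
      obtain ⟨b1, b2, b3⟩ := mG B' hB'
      have := card_of_disjoint (hd A a1 B' b1) (inter_of_subset_compl hAB)
      omega
    · obtain ⟨A', hA', rfl⟩ := mem_co.mp hA
      obtain ⟨a1, a2, a3⟩ := mG A' hA'
      obtain ⟨b1, b2, b3⟩ := mG B hB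
      have := card_of_cover (hd A' a1 B b1) (cover_of_compl_subset hAB)
      omega
    · obtain ⟨A', hA', rfl⟩ := mem_co.mp hA
      obtain ⟨B', hB', rfl⟩ := mem_co.mp hB
      refine hF (mem_coe.mpr (mG B' hB').1) (mem_coe.mpr (mG A' hA').1) ?_
        (compl_subset_compl.mp hAB)
      rintro rfl
      exact hne rfl
  have hNcard : ∀ A ∈ N, A.card = s + 1 := fun A hA => (mN A hA).2
  have hPN : Disjoint P N := by
    rw [Finset.disjoint_left]
    intro x hx hx'
    obtain ⟨⟨Y, hY, hxY⟩, -⟩ := mN x hx'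
    rcases mP x hx with hx | hx <;> rcases mGG Y hY with hY | hY
    · obtain ⟨a1, a2⟩ := mF1 x hx
      obtain ⟨b1, b2, b3⟩ := mG Y hY
      exact anti x a1 Y b1 (by omega) hxY
    · obtain ⟨B, hB, rfl⟩ := mem_co.mp hY
      obtain ⟨a1, a2⟩ := mF1 x hx
      obtain ⟨b1, b2, b3⟩ := mG B hB
      have := card_of_disjoint (hd x a1 B b1) (inter_of_subset_compl hxY)
      omega
    · obtain ⟨A, hA, rfl⟩ := mem_co.mp hx
      obtain ⟨a1, a2⟩ := mF2 A hA
      obtain ⟨b1, b2, b3⟩ := mG Y hY
      have := card_of_cover (hd A a1 Y b1) (cover_of_compl_subset hxY)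
      omega
    · obtain ⟨A, hA, rfl⟩ := mem_co.mp hx
      obtain ⟨B, hB, rfl⟩ := mem_co.mp hY
      obtain ⟨a1, a2⟩ := mF2 A hA
      obtain ⟨b1, b2, b3⟩ := mG B hB
      exact anti B b1 A a1 (by omega) (compl_subset_compl.mp hxY)
  -- the lower family avoids the shadow of `P` and `N`
  have key : ∀ r ∈ R, ∀ Y, (Y ∈ P ∨ Y ∈ GG) → ¬ r ⊆ Y := by
    intro r hr Y hY hrY
    rcases mR r hr with hr | hr
    · obtain ⟨a1, a2⟩ := mFl r hr
      rcases hY with hY | hY
      on_goal 1 => rcases mP Y hY with hY | hY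
      on_goal 3 => rcases mGG Y hY with hY | hY
      · obtain ⟨b1, b2⟩ := mF1 Y hY
        exact anti r a1 Y b1 (by omega) hrY
      · obtain ⟨B, hB, rfl⟩ := mem_co.mp hY
        obtain ⟨b1, b2⟩ := mF2 B hB
        have h1 := inter_of_subset_compl hrY
        have h2 := card_of_disjoint (hd r a1 B b1) h1
        rcases Nat.lt_or_ge r.card s with h3 | h3
        · obtain ⟨x, hx⟩ := hC1 r a1 B b1 h3 (by omega)
          rw [h1] at hx
          exact notMem_empty x hx
        · omega
      · obtain ⟨b1, b2, b3⟩ := mG Y hY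
        exact anti r a1 Y b1 (by omega) hrY
      · obtain ⟨B, hB, rfl⟩ := mem_co.mp hY
        obtain ⟨b1, b2, b3⟩ := mG B hB
        have h1 := inter_of_subset_compl hrY
        have h2 := card_of_disjoint (hd r a1 B b1) h1
        rcases Nat.lt_or_ge r.card s with h3 | h3
        · obtain ⟨x, hx⟩ := hC1 r a1 B b1 h3 (by omega)
          rw [h1] at hx
          exact notMem_empty x hx
        · omega
    · obtain ⟨A, hA, rfl⟩ := mem_co.mp hr
      obtain ⟨a1, a2⟩ := mFh A hA
      rcases hY with hY | hY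
      on_goal 1 => rcases mP Y hY with hY | hY
      on_goal 3 => rcases mGG Y hY with hY | hY
      · obtain ⟨b1, b2⟩ := mF1 Y hY
        have h1 := cover_of_compl_subset hrY
        have h2 := card_of_cover (hd A a1 Y b1) h1
        rcases Nat.lt_or_ge (n - s) A.card with h3 | h3
        · exact hC2 A a1 Y b1 h3 (by omega) h1
        · omega
      · obtain ⟨B, hB, rfl⟩ := mem_co.mp hY
        obtain ⟨b1, b2⟩ := mF2 B hB
        exact anti B b1 A a1 (by omega) (compl_subset_compl.mp hrY)
      · obtain ⟨b1, b2, b3⟩ := mG Y hY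
        have h1 := cover_of_compl_subset hrY
        have h2 := card_of_cover (hd A a1 Y b1) h1
        rcases Nat.lt_or_ge (n - s) A.card with h3 | h3
        · exact hC2 A a1 Y b1 h3 (by omega) h1
        · omega
      · obtain ⟨B, hB, rfl⟩ := mem_co.mp hY
        obtain ⟨b1, b2, b3⟩ := mG B hB
        exact anti B b1 A a1 (by omega) (compl_subset_compl.mp hrY)
  have hMcard : ∀ A ∈ M, A.card = s := fun A hA => (mM A hA).1
  have hMd : ∀ z ∈ M, ∀ y ∈ P ∪ N, ¬ z ⊆ y := by
    intro z hz y hy hzy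
    obtain ⟨-, r, hr, -, hrz⟩ := mM z hz
    rcases mem_union.mp hy with h | h
    · exact key r hr y (Or.inl h) (hrz.trans hzy)
    · obtain ⟨⟨Y, hY, hyY⟩, -⟩ := mN y h
      exact key r hr Y (Or.inr hY) ((hrz.trans hzy).trans hyY)
  have hcount := count hn hPcard hPi hNcard hPN hMcard hMd
  -- LYM
  have hlym : (s + 1 + k) * GG.card ≤ (2 * (s + 1 - k)) * N.card := by
    have h1 := lym_falling (m := s + 1) (a := s + 1 + k) (b := 2 * (s + 1 - k)) (𝒜 := GG)
      (by rw [Fintype.card_fin]; omega) hGGanti (fun B hB => (hGGcard B hB).1.le) (by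
        intro B hB
        rw [Fintype.card_fin, mul_assoc]
        rcases mGG B hB with h | h
        · obtain ⟨b1, b2, b3⟩ := mG B h
          exact hnum B b1 b2 b3
        · obtain ⟨A, hA, rfl⟩ := mem_co.mp h
          obtain ⟨a1, a2, a3⟩ := mG A hA
          rw [hcc A, Nat.choose_symm (hcU A)]
          exact hnum A a1 a2 a3)
    rwa [← hN] at h1
  rw [hGGsize] at hlym
  -- the sizes of the parts
  have hsum : F.card = Fl.card + Fh.card + (F1.card + F2.card) + G.card := by
    have p1 := card_filter_add_card_filter_not (s := F) (fun A => A.card ≤ s)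
    have p2 := card_filter_add_card_filter_not (s := F.filter (fun A => ¬ A.card ≤ s))
      (fun A => n - s ≤ A.card)
    have p3 := card_filter_add_card_filter_not
      (s := (F.filter (fun A => ¬ A.card ≤ s)).filter (fun A => ¬ n - s ≤ A.card))
      (fun A => A.card = s + 1)
    have p4 := card_filter_add_card_filter_not
      (s := ((F.filter (fun A => ¬ A.card ≤ s)).filter (fun A => ¬ n - s ≤ A.card)).filter
        (fun A => ¬ A.card = s + 1)) (fun A => A.card = n - s - 1)
    have q2 : (F.filter (fun A => ¬ A.card ≤ s)).filter (fun A => n - s ≤ A.card) = Fh := by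
      rw [hFh, filter_filter]
      exact filter_congr fun A _ => by omega
    have q3 : ((F.filter (fun A => ¬ A.card ≤ s)).filter (fun A => ¬ n - s ≤ A.card)).filter
        (fun A => A.card = s + 1) = F1 := by
      rw [hF1, filter_filter, filter_filter]
      exact filter_congr fun A _ => by omega
    have q4 : (((F.filter (fun A => ¬ A.card ≤ s)).filter (fun A => ¬ n - s ≤ A.card)).filter
        (fun A => ¬ A.card = s + 1)).filter (fun A => A.card = n - s - 1) = F2 := by
      rw [hF2, filter_filter, filter_filter, filter_filter]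
      exact filter_congr fun A _ => by omega
    have q5 : (((F.filter (fun A => ¬ A.card ≤ s)).filter (fun A => ¬ n - s ≤ A.card)).filter
        (fun A => ¬ A.card = s + 1)).filter (fun A => ¬ A.card = n - s - 1) = G := by
      rw [hG, filter_filter, filter_filter, filter_filter]
      exact filter_congr fun A _ => by omega
    rw [q2] at p2
    rw [q3] at p3
    rw [q4, q5] at p4
    rw [← hFl] at p1
    omega
  -- conclusion
  have hfin : (s + 1 + k) * F.card ≤ (s + 1 + k) * n.choose s := by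
    have h1 : (s + 1 + k) * (P.card + R.card) + (s + 1 + k) * N.card ≤
        (s + 1 + k) * n.choose s + 2 * k * N.card := by
      refine le_trans ?_ hcount
      gcongr
    rcases Nat.eq_zero_or_pos G.card with h0 | h0
    · have h2 : GG = ∅ := by
        rw [← card_eq_zero, hGGsize, h0]
      have h3 : N.card = 0 := by
        rw [card_eq_zero, hN, h2]
        ext x
        simp [mem_falling]
      rw [h3] at h1
      have h4 : F.card = P.card + R.card := by omega
      rw [h4]
      linarith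
    · have h2 : k < s + 1 := by
        by_contra hcon
        have e0 : s + 1 - k = 0 := by omega
        rw [e0] at hlym
        have : 0 < (s + 1 + k) * (2 * G.card) := Nat.mul_pos (by omega) (by omega)
        omega
      obtain ⟨t, ht⟩ : ∃ t, s + 1 = k + t := ⟨s + 1 - k, by omega⟩
      have e1 : s + 1 - k = t := by omega
      rw [e1] at hlym
      have h4 : F.card = P.card + R.card + G.card := by omega
      have e2 : s + 1 + k = 2 * k + t := by omega
      rw [e2] at hlym h1 ⊢
      rw [h4]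
      nlinarith
  exact Nat.le_of_mul_le_mul_left hfin (by omega)

end Pool.Agent.OddHalf26
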