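import Mathlib

set_option autoImplicit false

namespace Pool.Agent.OddHalf26

/-- One step towards larger `n` with `k` fixed. -/
theorem num_step {n s k m : ℕ} (hn : n = 2 * s + 1 + k) (hm : n = 2 * m ∨ n = 2 * m + 1)
    (hk : 1 ≤ k) (hsk : k ≤ s + 1)
    (h : (s + 1 + k) * n.choose m ≤ 2 * ((s + 1 - k) * n.choose (s + 1))) :
    (s + 2 + k) * (n + 2).choose (m + 1) ≤ 2 * ((s + 2 - k) * (n + 2).choose (s + 2)) := by
  obtain ⟨t, ht⟩ : ∃ t, s + 1 = k + t := ⟨s + 1 - k, by omega⟩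
  have e1 : s + 1 - k = t := by omega
  have e2 : s + 2 - k = t + 1 := by omega
  rw [e1] at h
  rw [e2]
  -- `C(n+2, j+1) (j+1) (n+1-j) = (n+2) (n+1) C(n, j)`
  have key : ∀ j, j ≤ n → (n + 2).choose (j + 1) * ((j + 1) * (n + 1 - j)) =
      (n + 2) * (n + 1) * n.choose j := by
    intro j hj
    have h1 := Nat.add_one_mul_choose_eq (n + 1) j
    have h2 := Nat.choose_mul_succ_eq n j
    calc (n + 2).choose (j + 1) * ((j + 1) * (n + 1 - j))
        = ((n + 1 + 1).choose (j + 1) * (j + 1)) * (n + 1 - j) := by ring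
      _ = ((n + 1 + 1) * (n + 1).choose j) * (n + 1 - j) := by rw [← h1]
      _ = (n + 2) * ((n + 1).choose j * (n + 1 - j)) := by ring
      _ = (n + 2) * (n.choose j * (n + 1)) := by rw [← h2]
      _ = _ := by ring
  have k1 := key m (by omega)
  have k2 := key (s + 1) (by omega)
  -- compare
  set X := (n + 2).choose (m + 1) with hX
  set Y := (n + 2).choose (s + 2) with hY
  have hs1 : n + 1 - (s + 1) = n - s := by omega
  rw [hs1] at k2
  have hprod : (s + 2) * (n - s) ≤ (m + 1) * (n + 1 - m) := by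
    obtain ⟨d, hd⟩ : ∃ d, m = s + 1 + d := ⟨m - (s + 1), by omega⟩
    have e3 : n - s = s + 1 + k := by omega
    rcases hm with hm | hm
    · have e4 : n + 1 - m = m + 1 := by omega
      have e5 : k = 2 * d + 1 := by omega
      rw [e3, e4, hd, e5]
      nlinarith
    · have e4 : n + 1 - m = m + 2 := by omega
      have e5 : k = 2 * d + 2 := by omega
      rw [e3, e4, hd, e5]
      nlinarith
  have hq : 0 < (s + 2) * (n - s) := Nat.mul_pos (by omega) (by omega)
  have hp : 0 < (m + 1) * (n + 1 - m) := Nat.mul_pos (by omega) (by omega)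
  set p := (m + 1) * (n + 1 - m) with hpd
  set q := (s + 2) * (n - s) with hqd
  have hC : 0 < (n + 2) * (n + 1) := by positivity
  -- X p = c C(n,m), Y q = c C(n,s+1), q ≤ p
  have h3 : (s + 1 + k) * (X * p) ≤ 2 * (t * (Y * q)) := by
    rw [k1, k2]
    calc (s + 1 + k) * ((n + 2) * (n + 1) * n.choose m)
        = ((n + 2) * (n + 1)) * ((s + 1 + k) * n.choose m) := by ring
      _ ≤ ((n + 2) * (n + 1)) * (2 * (t * n.choose (s + 1))) := Nat.mul_le_mul_left _ h
      _ = _ := by ring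
  have h4 : (s + 1 + k) * X ≤ 2 * (t * Y) := by
    have h5 : (s + 1 + k) * X * p ≤ 2 * (t * Y) * p := by
      calc (s + 1 + k) * X * p = (s + 1 + k) * (X * p) := by ring
        _ ≤ 2 * (t * (Y * q)) := h3
        _ = 2 * (t * Y) * q := by ring
        _ ≤ 2 * (t * Y) * p := Nat.mul_le_mul_left _ hprod
    exact Nat.le_of_mul_le_mul_right h5 hp
  -- add `X ≤ 2 Y`
  have h6 : X ≤ 2 * Y := by
    have e6 : s + 1 + k = 2 * k + t := by omega
    rw [e6] at h4
    have h7 : (2 * k + t) * X ≤ (2 * k + t) * (2 * Y) := by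
      refine h4.trans ?_
      nlinarith [Nat.zero_le (k * Y)]
    exact Nat.le_of_mul_le_mul_left h7 (by omega)
  calc (s + 2 + k) * X = (s + 1 + k) * X + X := by ring
    _ ≤ 2 * (t * Y) + 2 * Y := Nat.add_le_add h4 h6
    _ = _ := by ring

/-- Iteration of the step: it is enough to check one value of `n` for each `k`. -/
theorem num_iter {k s₀ : ℕ} (hk : 1 ≤ k) (hsk : k ≤ s₀ + 1)
    (h : (s₀ + 1 + k) * (2 * s₀ + 1 + k).choose ((2 * s₀ + 1 + k) / 2) ≤
      2 * ((s₀ + 1 - k) * (2 * s₀ + 1 + k).choose (s₀ + 1))) {s : ℕ} (hs : s₀ ≤ s) :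
    (s + 1 + k) * (2 * s + 1 + k).choose ((2 * s + 1 + k) / 2) ≤
      2 * ((s + 1 - k) * (2 * s + 1 + k).choose (s + 1)) := by
  induction s, hs using Nat.le_induction with
  | base => exact h
  | succ s hs ih =>
    have h1 := num_step (n := 2 * s + 1 + k) (s := s) (k := k) (m := (2 * s + 1 + k) / 2) rfl
      (by omega) hk (by omega) ih
    have e1 : 2 * (s + 1) + 1 + k = 2 * s + 1 + k + 2 := by ring
    have e2 : (2 * s + 1 + k + 2) / 2 = (2 * s + 1 + k) / 2 + 1 := by omega
    rw [e1, e2]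
    have e3 : s + 1 + 1 + k = s + 2 + k := by ring
    rw [e3]
    exact h1

open Real in
/-- Comparison with the level `s + 1`. -/
theorem choose_exp {n s k : ℕ} (hn : n = 2 * s + 1 + k) (t : ℕ) (ht : 2 * t ≤ k) :
    (n.choose (s + 1 + t) : ℝ) ≤
      n.choose (s + 1) * exp ((t * ((k : ℝ) - 1 - t)) / (s + 2)) := by
  induction t with
  | zero => simp
  | succ t ih =>
    have ih' := ih (by omega)
    have h1 := Nat.choose_succ_right_eq n (s + 1 + t)
    have h2 : (n.choose (s + 1 + t + 1) : ℝ) * (s + 1 + t + 1) =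
        n.choose (s + 1 + t) * (s + k - t) := by
      have e1 : n - (s + 1 + t) = s + k - t := by omega
      rw [e1] at h1
      have h3 : ((n.choose (s + 1 + t + 1) * (s + 1 + t + 1) : ℕ) : ℝ) =
          ((n.choose (s + 1 + t) * (s + k - t) : ℕ) : ℝ) := by rw [h1]
      push_cast [Nat.cast_sub (show t ≤ s + k by omega)] at h3
      exact h3
    have hpos : (0 : ℝ) < (s : ℝ) + 1 + t + 1 := by positivity
    have h4 : (n.choose (s + 1 + (t + 1)) : ℝ) =
        n.choose (s + 1 + t) * (((s : ℝ) + k - t) / (s + 1 + t + 1)) := by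
      rw [← add_assoc, mul_div_assoc', eq_div_iff hpos.ne']
      exact h2
    have hkt : (0 : ℝ) ≤ (k : ℝ) - 2 - 2 * t := by
      have : ((2 * (t + 1) : ℕ) : ℝ) ≤ k := by exact_mod_cast ht
      push_cast at this
      linarith
    have h5 : ((s : ℝ) + k - t) / (s + 1 + t + 1) ≤ exp (((k : ℝ) - 2 - 2 * t) / (s + 2)) := by
      have h6 : ((s : ℝ) + k - t) / (s + 1 + t + 1) = 1 + ((k : ℝ) - 2 - 2 * t) / (s + 1 + t + 1) := by
        field_simp
        ring
      have h7 : ((k : ℝ) - 2 - 2 * t) / (s + 1 + t + 1) ≤ ((k : ℝ) - 2 - 2 * t) / (s + 2) := by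
        apply div_le_div_of_nonneg_left hkt (by positivity)
        have : (0 : ℝ) ≤ t := by positivity
        linarith
      rw [h6]
      have h8 := add_one_le_exp (((k : ℝ) - 2 - 2 * t) / (s + 2))
      linarith
    rw [h4]
    calc (n.choose (s + 1 + t) : ℝ) * (((s : ℝ) + k - t) / (s + 1 + t + 1))
        ≤ (n.choose (s + 1) * exp ((t * ((k : ℝ) - 1 - t)) / (s + 2))) *
          exp (((k : ℝ) - 2 - 2 * t) / (s + 2)) := by
          apply mul_le_mul ih' h5 _ (by positivity)
          apply div_nonneg _ hpos.le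
          have : (0 : ℝ) ≤ s := by positivity
          have : (0 : ℝ) ≤ t := by positivity
          linarith
      _ = n.choose (s + 1) * exp ((((t + 1 : ℕ) : ℝ) * ((k : ℝ) - 1 - ((t + 1 : ℕ) : ℝ))) / (s + 2)) := by
          rw [mul_assoc, ← exp_add]
          congr 2
          push_cast
          ring

/-- The base cases for `2 ≤ k ≤ 21`. -/
theorem num_base {s₀ k : ℕ}
    (h : (s₀ + 1 + k) * ((2 * s₀ + 1 + k).descFactorial ((2 * s₀ + 1 + k) / 2) /
        ((2 * s₀ + 1 + k) / 2).factorial) ≤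
      2 * ((s₀ + 1 - k) * ((2 * s₀ + 1 + k).descFactorial (s₀ + 1) / (s₀ + 1).factorial))) :
    (s₀ + 1 + k) * (2 * s₀ + 1 + k).choose ((2 * s₀ + 1 + k) / 2) ≤
      2 * ((s₀ + 1 - k) * (2 * s₀ + 1 + k).choose (s₀ + 1)) := by
  rwa [Nat.choose_eq_descFactorial_div_factorial, Nat.choose_eq_descFactorial_div_factorial]

theorem num_small {s k : ℕ} (hk : 2 ≤ k) (hk' : k ≤ 21)
    (h : (k ^ 2 ≤ 2 * s + 1 + k ∧ 260 ≤ 2 * s + 1 + k) ∨ 2 * k ^ 2 + 6 ≤ 2 * s + 1 + k) :
    (s + 1 + k) * (2 * s + 1 + k).choose ((2 * s + 1 + k) / 2) ≤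
      2 * ((s + 1 - k) * (2 * s + 1 + k).choose (s + 1)) := by
  interval_cases k
  · exact num_iter (s₀ := 5) (by norm_num) (by norm_num) (num_base (by decide +kernel)) (by omega)
  · exact num_iter (s₀ := 10) (by norm_num) (by norm_num) (num_base (by decide +kernel)) (by omega)
  · exact num_iter (s₀ := 14) (by norm_num) (by norm_num) (num_base (by decide +kernel)) (by omega)
  · exact num_iter (s₀ := 19) (by norm_num) (by norm_num) (num_base (by decide +kernel)) (by omega)
  · exact num_iter (s₀ := 25) (by norm_num) (by norm_num) (num_base (by decide +kernel)) (by omega)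
  · exact num_iter (s₀ := 32) (by norm_num) (by norm_num) (num_base (by decide +kernel)) (by omega)
  · exact num_iter (s₀ := 39) (by norm_num) (by norm_num) (num_base (by decide +kernel)) (by omega)
  · exact num_iter (s₀ := 47) (by norm_num) (by norm_num) (num_base (by decide +kernel)) (by omega)
  · exact num_iter (s₀ := 55) (by norm_num) (by norm_num) (num_base (by decide +kernel)) (by omega)
  · exact num_iter (s₀ := 65) (by norm_num) (by norm_num) (num_base (by decide +kernel)) (by omega)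
  · exact num_iter (s₀ := 75) (by norm_num) (by norm_num) (num_base (by decide +kernel)) (by omega)
  · exact num_iter (s₀ := 86) (by norm_num) (by norm_num) (num_base (by decide +kernel)) (by omega)
  · exact num_iter (s₀ := 97) (by norm_num) (by norm_num) (num_base (by decide +kernel)) (by omega)
  · exact num_iter (s₀ := 109) (by norm_num) (by norm_num) (num_base (by decide +kernel)) (by omega)
  · exact num_iter (s₀ := 122) (by norm_num) (by norm_num) (num_base (by decide +kernel)) (by omega)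
  · exact num_iter (s₀ := 136) (by norm_num) (by norm_num) (num_base (by decide +kernel)) (by omega)
  · exact num_iter (s₀ := 150) (by norm_num) (by norm_num) (num_base (by decide +kernel)) (by omega)
  · exact num_iter (s₀ := 165) (by norm_num) (by norm_num) (num_base (by decide +kernel)) (by omega)
  · exact num_iter (s₀ := 181) (by norm_num) (by norm_num) (num_base (by decide +kernel)) (by omega)
  · exact num_iter (s₀ := 197) (by norm_num) (by norm_num) (num_base (by decide +kernel)) (by omega)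

open Real in
theorem num_large {s k : ℕ} (hk : 22 ≤ k) (h : k ^ 2 ≤ 2 * s + 1 + k) :
    (s + 1 + k) * (2 * s + 1 + k).choose ((2 * s + 1 + k) / 2) ≤
      2 * ((s + 1 - k) * (2 * s + 1 + k).choose (s + 1)) := by
  obtain ⟨t, ht⟩ : ∃ t, (2 * s + 1 + k) / 2 = s + 1 + t := ⟨(2 * s + 1 + k) / 2 - (s + 1), by omega⟩
  have ht2 : 2 * t ≤ k := by omega
  have h1 := choose_exp (n := 2 * s + 1 + k) (s := s) (k := k) rfl t ht2
  rw [ht]
  set X := (2 * s + 1 + k).choose (s + 1 + t) with hX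
  set Y := (2 * s + 1 + k).choose (s + 1) with hY
  have hkr : (22 : ℝ) ≤ k := by exact_mod_cast hk
  have hr : (k : ℝ) ^ 2 ≤ 2 * s + 1 + k := by exact_mod_cast h
  have hs2 : (0 : ℝ) < (s : ℝ) + 2 := by positivity
  have h2 : (t * ((k : ℝ) - 1 - t)) / (s + 2) ≤ 1 / 2 := by
    rw [div_le_iff₀ hs2]
    nlinarith [sq_nonneg ((k : ℝ) - 1 - 2 * t)]
  have h3 : exp ((t * ((k : ℝ) - 1 - t)) / (s + 2)) ≤ 1.65 := by
    refine (exp_le_exp.mpr h2).trans ?_
    have h4 : exp (1 / 2) * exp (1 / 2) = exp 1 := by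
      rw [← exp_add]
      norm_num
    have h5 := exp_one_lt_d9
    have h6 : 0 < exp (1 / 2 : ℝ) := exp_pos _
    by_contra hcon
    push Not at hcon
    nlinarith
  have hY0 : (0 : ℝ) ≤ (Y : ℝ) := by positivity
  have h7 : (X : ℝ) ≤ Y * 1.65 := h1.trans (mul_le_mul_of_nonneg_left h3 hY0)
  have hsk : k ≤ s + 1 := by
    have : k * 22 ≤ k ^ 2 := by
      rw [sq]
      exact Nat.mul_le_mul_left _ hk
    omega
  have h8 : ((s : ℝ) + 1 + k) * 1.65 ≤ 2 * ((s : ℝ) + 1 - k) := by nlinarith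
  have h9 : ((s : ℝ) + 1 + k) * X ≤ 2 * (((s : ℝ) + 1 - k) * Y) := by
    calc ((s : ℝ) + 1 + k) * X ≤ ((s : ℝ) + 1 + k) * (Y * 1.65) :=
          mul_le_mul_of_nonneg_left h7 (by positivity)
      _ = (((s : ℝ) + 1 + k) * 1.65) * Y := by ring
      _ ≤ (2 * ((s : ℝ) + 1 - k)) * Y := mul_le_mul_of_nonneg_right h8 hY0
      _ = _ := by ring
  have h10 : (((s + 1 + k) * X : ℕ) : ℝ) ≤ ((2 * ((s + 1 - k) * Y) : ℕ) : ℝ) := by
    push_cast [Nat.cast_sub hsk]
    exact h9
  exact_mod_cast h10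

/-- The numerical condition of `odd_main` for `k² ≤ n`, `n ≥ 260`, and for `n ≥ 2 k² + 6`. -/
theorem num_cond {n s k : ℕ} (hn : n = 2 * s + 1 + k) (hk : 2 ≤ k)
    (h : (k ^ 2 ≤ n ∧ 260 ≤ n) ∨ 2 * k ^ 2 + 6 ≤ n) (a : ℕ) :
    (s + 1 + k) * n.choose a ≤ 2 * ((s + 1 - k) * n.choose (s + 1)) := by
  subst hn
  refine (Nat.mul_le_mul_left _ (Nat.choose_le_middle a _)).trans ?_
  rcases Nat.lt_or_ge k 22 with h1 | h1
  · exact num_small hk (by omega) h
  · refine num_large h1 ?_
    rcases h with h | h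
    · exact h.1
    · omega

open Real in
/-- The numerical condition of `odd_main` for `26 k ≤ n` and a size `a` near one of the two ends. -/
theorem num_mid {n s k a : ℕ} (hn : n = 2 * s + 1 + k) (hk : 26 * k ≤ n) (ha : s + 1 < a)
    (ha' : a < n - s - 1) (h : 4 * ((a - s - 1) * (n - s - 1 - a)) ≤ n) :
    (s + 1 + k) * n.choose a ≤ 2 * ((s + 1 - k) * n.choose (s + 1)) := by
  -- reduce to the lower half
  wlog hle : 2 * (a - s - 1) ≤ k generalizing a with H
  · have h1 := H (a := n - a) (by omega) (by omega) (by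
      have e1 : n - a - s - 1 = n - s - 1 - a := by omega
      have e2 : n - s - 1 - (n - a) = a - s - 1 := by omega
      rw [e1, e2, mul_comm (n - s - 1 - a)]
      exact h) (by omega)
    rwa [Nat.choose_symm (by omega)] at h1
  obtain ⟨t, rfl⟩ : ∃ t, a = s + 1 + t := ⟨a - s - 1, by omega⟩
  have e1 : s + 1 + t - s - 1 = t := by omega
  rw [e1] at h hle
  have e2 : n - s - 1 - (s + 1 + t) = k - 1 - t := by omega
  rw [e2] at h
  have h1 := choose_exp hn t hle
  set X := n.choose (s + 1 + t) with hX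
  set Y := n.choose (s + 1) with hY
  have hk1 : 1 + t ≤ k := by omega
  have hkr : (26 : ℝ) * k ≤ 2 * s + 1 + k := by
    rw [hn] at hk
    exact_mod_cast hk
  have hr : 4 * ((t : ℝ) * ((k : ℝ) - 1 - t)) ≤ 2 * s + 1 + k := by
    rw [hn] at h
    have h2 : ((4 * (t * (k - 1 - t)) : ℕ) : ℝ) ≤ ((2 * s + 1 + k : ℕ) : ℝ) := by exact_mod_cast h
    rw [Nat.sub_sub] at h2
    push_cast [Nat.cast_sub hk1] at h2
    linarith
  have hs2 : (0 : ℝ) < (s : ℝ) + 2 := by positivity
  have h2 : (t * ((k : ℝ) - 1 - t)) / (s + 2) ≤ 13 / 25 := by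
    rw [div_le_iff₀ hs2]
    linarith
  have h3 : exp ((t * ((k : ℝ) - 1 - t)) / (s + 2)) ≤ 1.69 := by
    refine (exp_le_exp.mpr h2).trans ?_
    by_contra hcon
    push Not at hcon
    have h4 : exp (13 / 25) ^ 25 = exp 1 ^ 13 := by
      rw [← exp_nat_mul, ← exp_nat_mul]
      norm_num
    have h5 : exp 1 ^ 13 ≤ (2.7182818286 : ℝ) ^ 13 :=
      pow_le_pow_left₀ (exp_pos _).le exp_one_lt_d9.le 13
    have h6 : (1.69 : ℝ) ^ 25 ≤ exp (13 / 25) ^ 25 :=
      pow_le_pow_left₀ (by norm_num) hcon.le 25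
    rw [h4] at h6
    have h7 := h6.trans h5
    norm_num at h7
  have hY0 : (0 : ℝ) ≤ (Y : ℝ) := by positivity
  have h7 : (X : ℝ) ≤ Y * 1.69 := h1.trans (mul_le_mul_of_nonneg_left h3 hY0)
  have hsk : k ≤ s + 1 := by omega
  have h8 : ((s : ℝ) + 1 + k) * 1.69 ≤ 2 * ((s : ℝ) + 1 - k) := by linarith
  have h9 : ((s : ℝ) + 1 + k) * X ≤ 2 * (((s : ℝ) + 1 - k) * Y) := by
    calc ((s : ℝ) + 1 + k) * X ≤ ((s : ℝ) + 1 + k) * (Y * 1.69) :=
          mul_le_mul_of_nonneg_left h7 (by positivity)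
      _ = (((s : ℝ) + 1 + k) * 1.69) * Y := by ring
      _ ≤ (2 * ((s : ℝ) + 1 - k)) * Y := mul_le_mul_of_nonneg_right h8 hY0
      _ = _ := by ring
  have h10 : (((s + 1 + k) * X : ℕ) : ℝ) ≤ ((2 * ((s + 1 - k) * Y) : ℕ) : ℝ) := by
    push_cast [Nat.cast_sub hsk]
    exact h9
  exact_mod_cast h10

end Pool.Agent.OddHalf26
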